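import Pool.Agent.H47.PS.CHD

/-!
# Module PRE: Julia critical points of locally maximal maps are not preperiodic

PROOF. In the chart of `gen_ch` all cycles are attracting or repelling (`ar_gen`); a cycle in the Julia set is an expanding set, so `tg_of_exp` and `up_summ` apply if a critical orbit lands on it.
-/

set_option autoImplicit false

open Filter Topology Polynomial Metric Set

namespace Pool.Agent.H47.PS

open Pool.Agent.H44.Fatou Pool.Agent.H32.BT Pool.Agent.H79.Eul Pool.Agent.H79.Par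
open Pool.Agent.H35.EX Pool.Agent.H44.RR Pool.Agent.H56.HR Pool.Agent.H44.RC Pool.Agent.H47.RJ
open Pool.Agent.H47.NM Pool.Agent.H47.NN Pool.Agent.H44.ND Pool.Agent.H79.ES Pool.Agent.H44.RG
open Pool.Agent.H44.CP

variable {d : ℕ} {v : E d}

/-- expansion at a repelling fixed point -/
theorem rep_exp {F g : OnePoint ℂ → OnePoint ℂ} (hF : Continuous F) {a : OnePoint ℂ} {ρ κ : ℝ}
    (h : Rep F a ρ κ g) : ∃ q : ℝ, 1 < q ∧ ∀ᶠ y in 𝓝 a, q * chord a y ≤ chord (F a) (F y) := by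
  obtain ⟨κ', hκ'⟩ : ∃ κ', κ' = max κ (1 / 2) := ⟨_, rfl⟩
  have h1 : κ' < 1 := by
    rw [hκ']
    exact max_lt h.hκ1 (by norm_num)
  have h2 : 0 < κ' := by
    rw [hκ']
    exact lt_of_lt_of_le (by norm_num) (le_max_right _ _)
  refine ⟨κ'⁻¹, (one_lt_inv₀ h2).2 h1, ?_⟩
  have e1 : ∀ᶠ y in 𝓝 a, chord a y < ρ := ch_ball a h.hρ
  have e2 : ∀ᶠ y in 𝓝 a, chord a (F y) < ρ := by
    have h3 : {x | chord a x < ρ} ∈ 𝓝 (F a) := by
      rw [h.fix]
      exact ch_ball a h.hρ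
    exact hF.continuousAt.preimage_mem_nhds h3
  filter_upwards [e1, e2] with y hy1 hy2
  have h3 := h.contr (F y) hy2
  rw [h.left y hy1 hy2] at h3
  rw [h.fix, inv_mul_le_iff₀ h2]
  refine h3.trans (mul_le_mul_of_nonneg_right ?_ (chord_nn _ _))
  rw [hκ']
  exact le_max_left _ _

theorem cyc_expd {f : OnePoint ℂ → OnePoint ℂ} (hf : Continuous f) {p : ℕ} (hp : 0 < p)
    {a : OnePoint ℂ} (ha : f^[p] a = a)
    (hR : ∀ i : ℕ, ∃ (ρ κ : ℝ) (g : OnePoint ℂ → OnePoint ℂ), Rep f^[p] (f^[i] a) ρ κ g) :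
    Expd f ((fun i => f^[i] a) '' (Finset.range p : Set ℕ)) := by
  have hfin : ((fun i => f^[i] a) '' (Finset.range p : Set ℕ)).Finite :=
    (Finset.range p).finite_toSet.image _
  refine ⟨hfin.isCompact, ?_, p, ?_⟩
  · rintro _ ⟨i, hi, rfl⟩
    have hi' : i < p := Finset.mem_range.1 hi
    by_cases h : i + 1 < p
    · exact ⟨i + 1, Finset.mem_coe.2 (Finset.mem_range.2 h), Function.iterate_succ_apply' f i a⟩
    · refine ⟨0, Finset.mem_coe.2 (Finset.mem_range.2 hp), ?_⟩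
      show a = f (f^[i] a)
      rw [← Function.iterate_succ_apply' f i a]
      have h1 : i.succ = p := by omega
      rw [h1, ha]
  · have key : ∀ n : ℕ, ∃ q : ℝ, 1 < q ∧ ∀ i < n, ∀ᶠ y in 𝓝 (f^[i] a),
        q * chord (f^[i] a) y ≤ chord (f^[p] (f^[i] a)) (f^[p] y) := by
      intro n
      induction n with
      | zero => exact ⟨2, by norm_num, fun i hi => absurd hi (Nat.not_lt_zero i)⟩
      | succ n ih =>
        obtain ⟨q1, hq1, h1⟩ := ih
        obtain ⟨ρ, κ, g, hg⟩ := hR n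
        obtain ⟨q2, hq2, h2⟩ := rep_exp (hf.iterate p) hg
        refine ⟨min q1 q2, lt_min hq1 hq2, fun i hi => ?_⟩
        rcases Nat.lt_succ_iff_lt_or_eq.1 hi with h3 | rfl
        · filter_upwards [h1 i h3] with y hy
          exact (mul_le_mul_of_nonneg_right (min_le_left _ _) (chord_nn _ _)).trans hy
        · filter_upwards [h2] with y hy
          exact (mul_le_mul_of_nonneg_right (min_le_right _ _) (chord_nn _ _)).trans hy
    obtain ⟨q, hq, h1⟩ := key p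
    refine ⟨q, hq, ?_⟩
    rintro _ ⟨i, hi, rfl⟩
    exact h1 i (Finset.mem_range.1 hi)

theorem not_pre (hd : 2 ≤ d) (hcop : IsCoprime (pol v.1) (pol v.2))
    (hdeg : max (pol v.1).natDegree (pol v.2).natDegree = d) (hup : ¬ Up v) {c : OnePoint ℂ}
    (hc : IsCrit (Rf v) c) (hJ : c ∈ JS (Rf v)) :
    ∀ m n : ℕ, m < n → (Rf v)^[m] c ≠ (Rf v)^[n] c := by
  intro m n hmn he
  obtain ⟨L, G, φ, K, _, hG, hGL, hLG, hconj, hK, hGen, hinf⟩ := gen_ch hd hcop hdeg
  obtain ⟨hcop1, hdeg1, hφ⟩ := hconj v hcop hdeg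
  have hup1 : ¬ Up (L v) := fun h =>
    hup (up_chart hd hG hGL hLG (fun v h3 h4 => (hconj v h3 h4).2.2) hcop hdeg h)
  have hAR := ar_gen hd hGen hinf hup1
  have hf : Continuous (Rf (L v)) := rat_continuous hcop1
  have hc1 : IsCrit (Rf (L v)) (φ c) := (isCrit_conj φ hφ c).2 hc
  have hJ1 : φ c ∈ JS (Rf (L v)) := fun h => hJ ((Pool.Agent.H76.SU.fs_conj hK hφ c).1 h)
  obtain ⟨a, ha⟩ : ∃ a, a = (Rf (L v))^[m] (φ c) := ⟨_, rfl⟩
  have hper : (Rf (L v))^[n - m] a = a := by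
    rw [ha, ← Function.iterate_add_apply, iter_conj φ hφ, iter_conj φ hφ]
    have h1 : n - m + m = n := by omega
    rw [h1, he]
  have hJa : ∀ i : ℕ, (Rf (L v))^[i] a ∈ JS (Rf (L v)) := by
    intro i
    rw [ha, ← Function.iterate_add_apply]
    intro h
    exact hJ1 ((fs_iff (by omega) hcop1 hdeg1 (i + m) (φ c)).1 h)
  have hR : ∀ i : ℕ, ∃ (ρ κ : ℝ) (g : OnePoint ℂ → OnePoint ℂ),
      Rep (Rf (L v))^[n - m] ((Rf (L v))^[i] a) ρ κ g := by
    intro i
    have h1 : (Rf (L v))^[n - m] ((Rf (L v))^[i] a) = (Rf (L v))^[i] a := by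
      rw [← Function.iterate_add_apply, Nat.add_comm, Function.iterate_add_apply, hper]
    rcases hAR (n - m) (by omega) _ h1 with h2 | h2
    · exact absurd h2.2 (hJa i)
    · exact h2
  have hE := cyc_expd hf (by omega : 0 < n - m) hper hR
  obtain ⟨c2, hc2, hT⟩ := tg_of_exp hd hcop1 hdeg1 hc1 hE (m := m)
    ⟨0, Finset.mem_coe.2 (Finset.mem_range.2 (by omega)), by
      show a = _
      exact ha⟩
  exact hup1 (up_summ hd hcop1 hdeg1 hc2 hT.1)

end Pool.Agent.H47.PS
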