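import Pool.Agent.H47.PS.PNR
import Pool.Agent.H47.PS.PRE
import Pool.Agent.H1.PU.Dat
import Pool.Agent.H1.PU.Jpl

/-!
# Module RED: the planar data of stage 2

`red`: a locally maximal map (`¬ Up v`) with a critical point in the Julia set but not in `PC` has, in a chart, the planar data `PD2`. Five periodic points of the Julia set with disjoint cycles near the critical point (`per_near`): three go to `0, 1, ∞` (`ch_three`), the fourth is `x`, and `0`, `1` and the fifth are finite marks for the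
bound of the velocities.
-/

set_option autoImplicit false

open Filter Topology Polynomial Metric Set

namespace Pool.Agent.H47.PS

open Pool.Agent.H44.Fatou Pool.Agent.H32.BT Pool.Agent.H79.Eul Pool.Agent.H79.Par
open Pool.Agent.H35.EX Pool.Agent.H44.RR Pool.Agent.H56.HR Pool.Agent.H44.RC Pool.Agent.H47.RJ
open Pool.Agent.H47.NM Pool.Agent.H47.NN Pool.Agent.H44.ND Pool.Agent.H79.ES Pool.Agent.H44.RG
open Pool.Agent.H44.CP Pool.Agent.H80.AJ

variable {d : ℕ} {v : E d}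

/-- the forward orbit -/
def Orb (f : OnePoint ℂ → OnePoint ℂ) (p : OnePoint ℂ) : Set (OnePoint ℂ) := {x | ∃ i : ℕ, f^[i] p = x}

theorem orb_self (f : OnePoint ℂ → OnePoint ℂ) (p : OnePoint ℂ) : p ∈ Orb f p := ⟨0, rfl⟩

theorem orb_step {f : OnePoint ℂ → OnePoint ℂ} {p x : OnePoint ℂ} (h : x ∈ Orb f p) : f x ∈ Orb f p := by
  obtain ⟨i, rfl⟩ := h
  exact ⟨i + 1, Function.iterate_succ_apply' f i p⟩

theorem per_mul {f : OnePoint ℂ → OnePoint ℂ} {p : OnePoint ℂ} {N : ℕ} (h : f^[N] p = p) (k : ℕ) :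
    f^[N * k] p = p := by
  rw [Function.iterate_mul]
  exact Function.iterate_fixed h k

theorem orb_back {f : OnePoint ℂ → OnePoint ℂ} {p : OnePoint ℂ} {N : ℕ} (hN : 1 ≤ N)
    (h : f^[N] p = p) (i : ℕ) : ∃ j : ℕ, f^[j] (f^[i] p) = p := by
  refine ⟨N * (i + 1) - i, ?_⟩
  rw [← Function.iterate_add_apply]
  have h1 : i + 1 ≤ N * (i + 1) := Nat.le_mul_of_pos_left _ (by omega)
  have h2 : N * (i + 1) - i + i = N * (i + 1) := by omega
  rw [h2]
  exact per_mul h _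

theorem orb_fin {f : OnePoint ℂ → OnePoint ℂ} {p : OnePoint ℂ} {N : ℕ} (hN : 1 ≤ N)
    (h : f^[N] p = p) : (Orb f p).Finite := by
  refine ((Finset.range N).finite_toSet.image fun i => f^[i] p).subset ?_
  rintro _ ⟨i, rfl⟩
  refine ⟨i % N, Finset.mem_coe.2 (Finset.mem_range.2 (Nat.mod_lt i (by omega))), ?_⟩
  show f^[i % N] p = f^[i] p
  conv_rhs => rw [← Nat.mod_add_div i N, Function.iterate_add_apply, per_mul h]

theorem orb_dis {f : OnePoint ℂ → OnePoint ℂ} {p q : OnePoint ℂ} {N : ℕ} (hN : 1 ≤ N)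
    (h : f^[N] p = p) (hpq : p ∉ Orb f q) (i : ℕ) : f^[i] p ∉ Orb f q := by
  rintro ⟨k, hk⟩
  obtain ⟨j, hj⟩ := orb_back hN h i
  apply hpq
  refine ⟨j + k, ?_⟩
  rw [Function.iterate_add_apply, hk, hj]

theorem crit_nper {f : OnePoint ℂ → OnePoint ℂ} {c p : OnePoint ℂ} {N : ℕ} (hN : 1 ≤ N)
    (h : f^[N] p = p) (hinf : ∀ m n : ℕ, m < n → f^[m] c ≠ f^[n] c) (i m : ℕ) : f^[m] c ≠ f^[i] p := by
  intro he
  apply hinf m (N + m) (by omega)
  rw [Function.iterate_add_apply, he, ← Function.iterate_add_apply, Nat.add_comm,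
    Function.iterate_add_apply, h]

/-- a cycle in the plane with points of the Julia set is repelling -/
theorem mk_cyc (hd : 2 ≤ d) (hcop : IsCoprime (pol v.1) (pol v.2))
    (hdeg : max (pol v.1).natDegree (pol v.2).natDegree = d) (hup : ¬ Up v) {q : OnePoint ℂ}
    (hq : q ∈ JS (Rf v)) {N : ℕ} (hN : 1 ≤ N) (h : (Rf v)^[N] q = q)
    (hfin : ∀ i : ℕ, (Rf v)^[i] q ≠ OnePoint.infty) : ∃ (x : ℕ → ℂ) (m : ℂ),
      Cyc (pol v.1) (pol v.2) N x m ∧ 1 < ‖m‖ ∧ ∀ i, (x i : OnePoint ℂ) = (Rf v)^[i] q := by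
  choose x hx using fun i => OnePoint.ne_infty_iff_exists.1 (hfin i)
  have hst : ∀ i, rat (pol v.1) (pol v.2) (x i : OnePoint ℂ) = (x (i + 1) : OnePoint ℂ) := by
    intro i
    rw [hx, hx, Function.iterate_succ_apply']
    rfl
  have hne : ∀ i, (pol v.2).eval (x i) ≠ 0 := by
    intro i h0
    have h1 := hst i
    rw [rat_coe, h0] at h1
    unfold pt at h1
    rw [if_pos rfl] at h1
    exact OnePoint.infty_ne_coe _ h1
  have hc : Cyc (pol v.1) (pol v.2) N x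
      (∏ i ∈ Finset.range N, (Wr (pol v.1) (pol v.2)).eval (x i) / ((pol v.2).eval (x i)) ^ 2) := by
    refine ⟨fun i _ => hne i, fun i _ => ?_, ?_, rfl⟩
    · have h1 := hst i
      rw [rat_coe_of_ne (hne i)] at h1
      exact OnePoint.coe_injective h1
    · apply OnePoint.coe_injective
      rw [hx, hx, h]
      rfl
  refine ⟨x, _, hc, ?_, hx⟩
  by_contra hm
  have hm1 := not_lt.1 hm
  rcases lt_or_eq_of_le hm1 with h1 | h1
  · have h2 := cyc_sink hcop (by omega) hc h1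
    have h3 : (x 0 : OnePoint ℂ) = q := hx 0
    rw [h3] at h2
    exact na_js hd hcop hdeg hup hq (att_sink h2)
  · exact hup (neu_up hd hcop hdeg (by omega) hc h1)

theorem red (hd : 2 ≤ d) (hcop : IsCoprime (pol v.1) (pol v.2))
    (hdeg : max (pol v.1).natDegree (pol v.2).natDegree = d) (hup : ¬ Up v) {c : OnePoint ℂ}
    (hc : IsCrit (Rf v) c) (hJ : c ∈ JS (Rf v)) (hP : c ∉ PC (Rf v)) :
    ∃ (w : E d) (PA : Set (OnePoint ℂ)) (c1 : ℂ) (s : ℝ) (p : ℕ) (x : ℕ → ℂ) (m : ℂ)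
      (n : Fin 3 → ℕ) (y : Fin 3 → ℕ → ℂ) (l : Fin 3 → ℂ), ¬ Up w ∧
      Pool.Agent.H1.PU.PD2 w PA c1 s (JS (Rf w)) p x m ∧ (∀ j, 0 < n j) ∧
      (∀ j, Cyc (pol w.1) (pol w.2) (n j) (y j) (l j)) ∧ (∀ j, l j ≠ 1) ∧
      (∀ i j, i ≠ j → y i 0 ≠ y j 0) ∧ ∀ j, ∀ i < n j, y j i ≠ x 0 := by
  have hinf := not_pre hd hcop hdeg hup hc hJ
  have hf : Continuous (Rf v) := rat_continuous hcop
  obtain ⟨f, hfd⟩ : ∃ f, f = Rf v := ⟨_, rfl⟩
  rw [← hfd] at hinf hc hJ hP hf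
  have next : ∀ F : Set (OnePoint ℂ), F.Finite → c ∉ F → ∃ (p : OnePoint ℂ) (N : ℕ), p ∉ PC f ∧
      p ∉ F ∧ p ∈ JS f ∧ 1 ≤ N ∧ f^[N] p = p := by
    intro F hF hcF
    have hU : (F ∪ PC f)ᶜ ∈ 𝓝 c := by
      refine (hF.isClosed.union (pc_closed f)).isOpen_compl.mem_nhds ?_
      rintro (h | h)
      · exact hcF h
      · exact hP h
    obtain ⟨p, hpU, hpJ, N, hN, hpN⟩ := per_near hd hcop hdeg (hfd ▸ hc) (hfd ▸ hJ) (hfd ▸ hP)
      (hfd ▸ hinf) hU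
    rw [← hfd] at hpJ hpN
    exact ⟨p, N, fun h => hpU (Or.inr h), fun h => hpU (Or.inl h), hpJ, hN, hpN⟩
  have hcO : ∀ (p : OnePoint ℂ) (N : ℕ), 1 ≤ N → f^[N] p = p → c ∉ Orb f p := by
    rintro p N hN hpN ⟨i, hi⟩
    exact crit_nper hN hpN hinf i 0 hi.symm
  obtain ⟨p1, N1, a1, -, b1, c1, e1⟩ := next ∅ finite_empty (fun h => h)
  obtain ⟨p2, N2, a2, g2, b2, c2, e2⟩ := next (Orb f p1) (orb_fin c1 e1) (hcO _ _ c1 e1)
  obtain ⟨p3, N3, a3, g3, b3, c3, e3⟩ := next (Orb f p1 ∪ Orb f p2)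
    ((orb_fin c1 e1).union (orb_fin c2 e2)) (by
      rintro (h | h)
      · exact hcO _ _ c1 e1 h
      · exact hcO _ _ c2 e2 h)
  obtain ⟨p4, N4, a4, g4, b4, c4, e4⟩ := next (Orb f p1 ∪ Orb f p2 ∪ Orb f p3)
    (((orb_fin c1 e1).union (orb_fin c2 e2)).union (orb_fin c3 e3)) (by
      rintro ((h | h) | h)
      · exact hcO _ _ c1 e1 h
      · exact hcO _ _ c2 e2 h
      · exact hcO _ _ c3 e3 h)
  obtain ⟨p5, N5, a5, g5, b5, c5, e5⟩ := next (Orb f p1 ∪ Orb f p2 ∪ Orb f p3 ∪ Orb f p4)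
    ((((orb_fin c1 e1).union (orb_fin c2 e2)).union (orb_fin c3 e3)).union (orb_fin c4 e4)) (by
      rintro (((h | h) | h) | h)
      · exact hcO _ _ c1 e1 h
      · exact hcO _ _ c2 e2 h
      · exact hcO _ _ c3 e3 h
      · exact hcO _ _ c4 e4 h)
  have n21 : p2 ∉ Orb f p1 := g2
  have n31 : p3 ∉ Orb f p1 := fun h => g3 (Or.inl h)
  have n32 : p3 ∉ Orb f p2 := fun h => g3 (Or.inr h)
  have n41 : p4 ∉ Orb f p1 := fun h => g4 (Or.inl (Or.inl h))
  have n42 : p4 ∉ Orb f p2 := fun h => g4 (Or.inl (Or.inr h))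
  have n43 : p4 ∉ Orb f p3 := fun h => g4 (Or.inr h)
  have n51 : p5 ∉ Orb f p1 := fun h => g5 (Or.inl (Or.inl (Or.inl h)))
  have n52 : p5 ∉ Orb f p2 := fun h => g5 (Or.inl (Or.inl (Or.inr h)))
  have n53 : p5 ∉ Orb f p3 := fun h => g5 (Or.inl (Or.inr h))
  have n54 : p5 ∉ Orb f p4 := fun h => g5 (Or.inr h)
  -- symmetric versions
  have sym : ∀ {p q : OnePoint ℂ} {N M : ℕ}, 1 ≤ N → f^[N] p = p → 1 ≤ M → f^[M] q = q →
      q ∉ Orb f p → p ∉ Orb f q := by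
    rintro p q N M hN hp hM hq h ⟨i, hi⟩
    apply h
    obtain ⟨j, hj⟩ := orb_back hM hq i
    exact ⟨j, by rw [← hi]; exact hj⟩
  have ne_of : ∀ {p q : OnePoint ℂ}, p ∉ Orb f q → p ≠ q := by
    rintro p q h rfl
    exact h (orb_self f p)
  -- the chart
  obtain ⟨L, G, φ, K, hch, -, f0, f1, fi⟩ := ch_three (d := d) hd (ne_of n21).symm (ne_of n31).symm
    (ne_of n32).symm
  obtain ⟨hcop1, hdeg1, hφ⟩ := hch.conj v hcop hdeg
  rw [← hfd] at hφ
  have hφn : ∀ (n : ℕ) (x : OnePoint ℂ), (Rf (L v))^[n] (φ x) = φ (f^[n] x) := fun n x =>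
    iter_conj φ hφ n x
  have hup1 : ¬ Up (L v) := fun h =>
    hup (up_chart hd hch.cG hch.invL hch.invR (fun v h3 h4 => (hch.conj v h3 h4).2.2) hcop hdeg h)
  have hJS : ∀ x, x ∈ JS f → φ x ∈ JS (Rf (L v)) := fun x hx h =>
    hx ((Pool.Agent.H76.SU.fs_conj hch.bil hφ x).1 h)
  -- finite cycles
  have hfin : ∀ {q : OnePoint ℂ} {N : ℕ}, 1 ≤ N → f^[N] q = q → q ∉ Orb f p3 →
      ∀ i : ℕ, (Rf (L v))^[i] (φ q) ≠ OnePoint.infty := by
    intro q N hN hq h i he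
    rw [hφn, ← fi] at he
    have h1 := φ.injective he
    exact orb_dis hN hq h i (h1 ▸ orb_self f p3)
  have hpq : ∀ {q : OnePoint ℂ} {N : ℕ}, f^[N] q = q → (Rf (L v))^[N] (φ q) = φ q := by
    intro q N hq
    rw [hφn, hq]
  have n13 := sym c1 e1 c3 e3 n31
  have n23 := sym c2 e2 c3 e3 n32
  obtain ⟨y1, l1, k1, m1, z1⟩ := mk_cyc hd hcop1 hdeg1 hup1 (hJS _ b1) c1 (hpq e1) (hfin c1 e1 n13)
  obtain ⟨y2, l2, k2, m2, z2⟩ := mk_cyc hd hcop1 hdeg1 hup1 (hJS _ b2) c2 (hpq e2) (hfin c2 e2 n23)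
  obtain ⟨x, m, k4, m4, z4⟩ := mk_cyc hd hcop1 hdeg1 hup1 (hJS _ b4) c4 (hpq e4) (hfin c4 e4 n43)
  obtain ⟨y5, l5, k5, m5, z5⟩ := mk_cyc hd hcop1 hdeg1 hup1 (hJS _ b5) c5 (hpq e5) (hfin c5 e5 n53)
  -- the critical point
  obtain ⟨cc, hcc⟩ : ∃ cc : ℂ, (cc : OnePoint ℂ) = φ c := by
    apply OnePoint.ne_infty_iff_exists.1
    intro h
    rw [← fi] at h
    exact crit_nper c3 e3 hinf 0 0 (φ.injective h)
  -- the closed set
  obtain ⟨B, hB⟩ : ∃ B, B = PC f ∪ Orb f p1 ∪ Orb f p2 ∪ Orb f p3 := ⟨_, rfl⟩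
  have hBc : IsClosed B := by
    rw [hB]
    exact (((pc_closed f).union (orb_fin c1 e1).isClosed).union (orb_fin c2 e2).isClosed).union
      (orb_fin c3 e3).isClosed
  have hBf : ∀ x ∈ B, f x ∈ B := by
    intro x hx
    rw [hB] at hx ⊢
    rcases hx with ((hx | hx) | hx) | hx
    · exact Or.inl (Or.inl (Or.inl (pc_inv hf hx)))
    · exact Or.inl (Or.inl (Or.inr (orb_step hx)))
    · exact Or.inl (Or.inr (orb_step hx))
    · exact Or.inr (orb_step hx)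
  have hcB : c ∉ B := by
    rw [hB]
    rintro (((h | h) | h) | h)
    · exact hP h
    · exact hcO _ _ c1 e1 h
    · exact hcO _ _ c2 e2 h
    · exact hcO _ _ c3 e3 h
  have hPB : PC f ⊆ B := by
    rw [hB]
    exact fun x hx => Or.inl (Or.inl (Or.inl hx))
  have h1B : p1 ∈ B := by
    rw [hB]
    exact Or.inl (Or.inl (Or.inr (orb_self f p1)))
  have h2B : p2 ∈ B := by
    rw [hB]
    exact Or.inl (Or.inr (orb_self f p2))
  have h3B : p3 ∈ B := by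
    rw [hB]
    exact Or.inr (orb_self f p3)
  have h4B : p4 ∉ B := by
    rw [hB]
    rintro (((h | h) | h) | h)
    · exact a4 h
    · exact n41 h
    · exact n42 h
    · exact n43 h
  have hmemB : ∀ y, φ y ∈ φ '' B ↔ y ∈ B := fun y => φ.injective.mem_set_image
  have hsys : Sys0 (pol (L v).1) (pol (L v).2) (φ '' B) := by
    refine ⟨hcop1, by rw [hdeg1]; omega, φ.isClosed_image.2 hBc, ?_, ?_, ?_, ?_⟩
    · rintro _ ⟨x, hx, rfl⟩
      exact ⟨f x, hBf x hx, (hφ x).symm⟩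
    · intro y hy
      obtain ⟨y, rfl⟩ := φ.surjective y
      have h1 : IsCrit f y := (isCrit_conj φ hφ y).1 hy
      exact ⟨f y, hPB (pc_orb h1 (n := 1) le_rfl), (hφ y).symm⟩
    · exact ⟨p3, h3B, fi⟩
    · exact ⟨0, p1, h1B, f0⟩
  have hccB : (cc : OnePoint ℂ) ∉ φ '' B := by
    rw [hcc, hmemB]
    exact hcB
  obtain ⟨r, hr, hoff⟩ := exists_off hsys.closed hccB
  have hKp := Pool.Agent.H80.AJ.KK_pos
  obtain ⟨s, hs⟩ : ∃ s : ℝ, s = 4 * r / (131072 * Pool.Agent.H80.AJ.KK) := ⟨_, rfl⟩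
  have hs0 : 0 < s := by rw [hs]; positivity
  have hrho : Pool.Agent.H1.PU.rho s = 4 * r := by
    unfold Pool.Agent.H1.PU.rho
    rw [hs]
    field_simp
  have hrd : Pool.Agent.H61.TT.RatD d (pol (L v).1) (pol (L v).2) := ⟨hd, hcop1, hdeg1⟩
  have hcrit1 : IsCrit (Rf (L v)) (cc : OnePoint ℂ) := by
    rw [hcc]
    exact (isCrit_conj φ hφ c).2 hc
  have hval : (Rf (L v)) (cc : OnePoint ℂ) = φ (f c) := by
    rw [hcc]
    exact hφ c
  have hqc : (pol (L v).2).eval cc ≠ 0 := by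
    intro h0
    have h1 := hval
    unfold Rf at h1
    rw [rat_coe, h0] at h1
    unfold pt at h1
    rw [if_pos rfl, ← fi] at h1
    exact crit_nper c3 e3 hinf 0 1 (φ.injective h1.symm)
  have hgg : ((Pool.Agent.H61.TT.gg (pol (L v).1) (pol (L v).2) cc : ℂ) : OnePoint ℂ) = φ (f c) := by
    rw [← hval]
    unfold Rf
    rw [rat_coe_of_ne hqc]
    rfl
  refine ⟨L v, φ '' B, cc, s, N4, x, m, ![N1, N2, N5], ![y1, y2, y5], ![l1, l2, l5], hup1,
    ⟨⟨hsys, hrd, ⟨p1, h1B, f0⟩, ⟨p2, h2B, f1⟩, ?_, hs0, ?_⟩, ⟨?_, ?_, ?_, ?_, ?_⟩,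
      Pool.Agent.H1.PU.jp_of hrd ?_, c4, k4, m4, ?_, ?_⟩, ?_, ?_, ?_, ?_, ?_⟩
  · show Rf (L v) (cc : OnePoint ℂ) ∈ φ '' B
    rw [hval, hmemB]
    exact hPB (pc_orb hc (n := 1) le_rfl)
  · rw [hrho]
    exact hoff
  · exact crit_coe hcrit1
  · intro i j hij
    show (Rf (L v))^[i] (cc : OnePoint ℂ) ≠ (Rf (L v))^[j] (cc : OnePoint ℂ)
    rw [hcc, hφn, hφn]
    exact fun h => hinf i j hij (φ.injective h)
  · intro h0
    rw [h0, ← f0] at hgg
    exact crit_nper c1 e1 hinf 0 1 (φ.injective hgg.symm)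
  · intro h0
    rw [h0, ← f1] at hgg
    exact crit_nper c2 e2 hinf 0 1 (φ.injective hgg.symm)
  · intro i j h
    have h1 : (Rf (L v))^[i] (cc : OnePoint ℂ) = (Rf (L v))^[j] OnePoint.infty := h
    rw [hcc, ← fi, hφn, hφn] at h1
    exact crit_nper c3 e3 hinf j i (φ.injective h1)
  · rw [hcc]
    exact hJS c hJ
  · rw [z4 0]
    exact hJS p4 b4
  · rw [z4 0]
    show φ p4 ∉ φ '' B
    rw [hmemB]
    exact h4B
  · intro j
    fin_cases j
    · exact c1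
    · exact c2
    · exact c5
  · intro j
    fin_cases j
    · exact k1
    · exact k2
    · exact k5
  · have key : ∀ l : ℂ, 1 < ‖l‖ → l ≠ 1 := by
      rintro l hl rfl
      rw [norm_one] at hl
      exact lt_irrefl _ hl
    intro j
    fin_cases j
    · exact key _ m1
    · exact key _ m2
    · exact key _ m5
  · have key : ∀ {q q' : OnePoint ℂ} {a b : ℂ}, (a : OnePoint ℂ) = φ q → (b : OnePoint ℂ) = φ q' →
        q ≠ q' → a ≠ b := by
      rintro q q' a b ha hb hne rfl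
      exact hne (φ.injective (ha.symm.trans hb))
    intro i j hij
    fin_cases i <;> fin_cases j <;> simp only [ne_eq, Fin.zero_eta, Fin.mk_one, Fin.reduceFinMk, not_true_eq_false] at hij ⊢
    · exact key (z1 0) (z2 0) (ne_of n21).symm
    · exact key (z1 0) (z5 0) (ne_of n51).symm
    · exact key (z2 0) (z1 0) (ne_of n21)
    · exact key (z2 0) (z5 0) (ne_of n52).symm
    · exact key (z5 0) (z1 0) (ne_of n51)
    · exact key (z5 0) (z2 0) (ne_of n52)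
  · have key : ∀ {q : OnePoint ℂ} {N : ℕ} {y : ℕ → ℂ}, 1 ≤ N → f^[N] q = q → q ∉ Orb f p4 →
        (∀ i, (y i : OnePoint ℂ) = (Rf (L v))^[i] (φ q)) → ∀ i, y i ≠ x 0 := by
      intro q N y hN hq hne hy i he
      have h1 := hy i
      rw [he, z4 0] at h1
      have h1' : φ p4 = φ (f^[i] q) := by
        rw [← hφn i q]
        exact h1
      have h2 : p4 = f^[i] q := φ.injective h1'
      exact orb_dis hN hq hne i (h2 ▸ orb_self f p4)
    intro j i _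
    fin_cases j
    · exact key c1 e1 (sym c1 e1 c4 e4 n41) z1 i
    · exact key c2 e2 (sym c2 e2 c4 e4 n42) z2 i
    · exact key c5 e5 n54 z5 i

end Pool.Agent.H47.PS
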