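import Pool.Agent.H47.PS.RED
import Pool.Agent.H1.PU.Main
import Pool.Agent.H64.PC.VB6

/-!
# Module FIN: THEOREM P for all rational maps

`pr_sph`: a map with a critical point in the Julia set but not in `PC` has maps with more attracted critical points near it. `p_sph`: outside a nowhere dense set every critical point in the Julia set is in the limit set of a recurrent critical point of the Julia set, and the map is hyperbolic or there is such a point.
PROOF. `red`, `vb` (H64/PC/VB6), `p_false` (H1/PU/Main); then as `p_nd` (H44/CP/PFN).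
-/

set_option autoImplicit false

open Filter Topology Polynomial Metric Set

namespace Pool.Agent.H47.PS

open Pool.Agent.H44.Fatou Pool.Agent.H32.BT Pool.Agent.H79.Eul Pool.Agent.H79.Par
open Pool.Agent.H35.EX Pool.Agent.H44.RR Pool.Agent.H56.HR Pool.Agent.H44.RC Pool.Agent.H47.RJ
open Pool.Agent.H47.NM Pool.Agent.H47.NN Pool.Agent.H44.ND Pool.Agent.H79.ES Pool.Agent.H44.RG
open Pool.Agent.H44.CP Pool.Agent.H80.AJ

variable {d : ℕ} {v : E d}

/-- (P1) for all rational maps -/
theorem pr_sph (hd : 2 ≤ d) (hcop : IsCoprime (pol v.1) (pol v.2))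
    (hdeg : max (pol v.1).natDegree (pol v.2).natDegree = d) {c : OnePoint ℂ}
    (hc : IsCrit (Rf v) c) (hJ : c ∈ JS (Rf v)) (hP : c ∉ PC (Rf v)) : Up v := by
  by_contra hup
  obtain ⟨w, PA, c1, s, p, x, m, n, y, l, hup1, hPD, hn, hy, hl, hyy, hyx⟩ :=
    red hd hcop hdeg hup hc hJ hP
  exact Pool.Agent.H1.PU.p_false hPD (Pool.Agent.H64.PC.vb hd hPD.sys.rd.cop hPD.sys.rd.deg hup1
    hPD.hp hPD.cyc hPD.rep hn hy hl hyy hyx)

theorem p_gen_sph (hd : 2 ≤ d) {w : E d} (h : Gen d (pol w.1) (pol w.2))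
    (hi : ∀ p : ℕ, 0 < p → (Rf w)^[p] OnePoint.infty ≠ OnePoint.infty) : ConcP (Rf w) ∨ Up w := by
  have hdeg : max (pol w.1).natDegree (pol w.2).natDegree = d := by rw [h.ha, h.hb, max_self]
  by_cases hup : Up w
  · exact Or.inr hup
  · left
    have hAR := ar_gen hd h hi hup
    refine ⟨fun c hc hcJ => to_rec hd h.cop hdeg hAR (fun c hc hcJ => ?_) hc hcJ, ?_⟩
    · by_contra hP
      exact hup (pr_sph hd h.cop hdeg hc hcJ hP)
    · rcases gen_case hd h hi with h1 | h1
      · exact h1.2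
      · exact absurd h1 hup

/-- THEOREM P -/
theorem p_sph (hd : 2 ≤ d) :
    IsNowhereDense {v : E d | IsCoprime (pol v.1) (pol v.2) ∧
      max (pol v.1).natDegree (pol v.2).natDegree = d ∧ ¬ ConcP (Rf v)} := by
  refine (up_nwd hd).mono ?_
  rintro v ⟨hcop, hdeg, hn⟩
  refine ⟨hcop, hdeg, ?_⟩
  obtain ⟨L, G, φ, K, _, hG, hGL, hLG, hconj, hK, hGen, hinf⟩ := gen_ch hd hcop hdeg
  have hφ := (hconj v hcop hdeg).2.2
  rcases p_gen_sph hd hGen hinf with h1 | h1
  · exact absurd (concp_conj hK hφ h1) hn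
  · exact up_chart hd hG hGL hLG (fun v h2 h3 => (hconj v h2 h3).2.2) hcop hdeg h1

end Pool.Agent.H47.PS
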