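import Pool.Agent.H47.PS.CHD
import Pool.Agent.H57.CP.CLA

/-!
# Module PNR: periodic points of the Julia set near a critical point off the critical limit sets

`per_sys`: planar version, the proof of `per0` (H57/CP/PER, helper44) with the point of the Julia set in place of the multiplier: the inverse branch `G` of `f^j` is a contraction of a closed disc with fixed point `p`; `f^(jk) (G^k u) = u`, so `f` is not equicontinuous at `p`. `per_near`: on the sphere; a point `f^n c`, `n ≥ 1`, goes to infinity.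
-/

set_option autoImplicit false

open Filter Topology Polynomial Metric Set

namespace Pool.Agent.H47.PS

open Pool.Agent.H44.Fatou Pool.Agent.H32.BT Pool.Agent.H79.Eul Pool.Agent.H79.Par
open Pool.Agent.H35.EX Pool.Agent.H44.RR Pool.Agent.H56.HR Pool.Agent.H44.RC Pool.Agent.H47.RJ
open Pool.Agent.H47.NM Pool.Agent.H47.NN Pool.Agent.H44.ND Pool.Agent.H79.ES Pool.Agent.H44.RG
open Pool.Agent.H44.CP Pool.Agent.H80.AJ

variable {d : ℕ} {v : E d}

theorem pc_closed (f : OnePoint ℂ → OnePoint ℂ) : IsClosed (PC f) := by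
  unfold PC
  exact isClosed_closure

theorem pc_orb {f : OnePoint ℂ → OnePoint ℂ} {c : OnePoint ℂ} (hc : IsCrit f c) {n : ℕ}
    (hn : 1 ≤ n) : f^[n] c ∈ PC f := by
  unfold PC
  exact subset_closure ⟨c, hc, n, hn, rfl⟩

theorem pc_inv {f : OnePoint ℂ → OnePoint ℂ} (hf : Continuous f) {x : OnePoint ℂ}
    (hx : x ∈ PC f) : f x ∈ PC f := by
  unfold PC at hx ⊢
  refine map_mem_closure hf hx ?_
  rintro y ⟨c, hc, n, hn, rfl⟩
  exact ⟨c, hc, n + 1, by omega, Function.iterate_succ_apply' f n c⟩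

theorem per_sys (hd : 2 ≤ d) (hcop : IsCoprime (pol v.1) (pol v.2))
    (hdeg : max (pol v.1).natDegree (pol v.2).natDegree = d) {A : Set (OnePoint ℂ)}
    (hs : Sys0 (pol v.1) (pol v.2) A) {c : ℂ} {ρ : ℝ} (hρ : 0 < ρ) (hof : Off A c ρ)
    (hfc : ∀ j : ℕ, 0 < j → (rat (pol v.1) (pol v.2))^[j] (c : OnePoint ℂ) ∈ A)
    (hJ : (c : OnePoint ℂ) ∈ JS (Rf v)) {ε : ℝ} (hε : 0 < ε) :
    ∃ (N : ℕ) (p : ℂ), 0 < N ∧ ‖p - c‖ < ε ∧ (Rf v)^[N] (p : OnePoint ℂ) = (p : OnePoint ℂ) ∧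
      (p : OnePoint ℂ) ∈ JS (Rf v) := by
  obtain ⟨f, hf⟩ : ∃ f, f = rat (pol v.1) (pol v.2) := ⟨_, rfl⟩
  obtain ⟨K, hK⟩ : ∃ K, K = Pool.Agent.H80.AJ.KK := ⟨_, rfl⟩
  have hK1 : 1 ≤ K := by rw [hK]; exact Pool.Agent.H80.AJ.one_le_KK
  obtain ⟨η, hη⟩ : ∃ η, η = min (ε / (4 * K + 2)) (ρ / (64 * (4 * K + 2))) := ⟨_, rfl⟩
  have hη0 : 0 < η := by rw [hη]; positivity
  have hη1 : (4 * K + 2) * η ≤ ε := by
    have h1 : η ≤ ε / (4 * K + 2) := by rw [hη]; exact min_le_left _ _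
    rw [le_div_iff₀ (by positivity)] at h1
    linarith
  have hη2 : 64 * ((4 * K + 2) * η) ≤ ρ := by
    have h1 : η ≤ ρ / (64 * (4 * K + 2)) := by rw [hη]; exact min_le_right _ _
    rw [le_div_iff₀ (by positivity)] at h1
    linarith
  have hKη : 0 ≤ K * η := by positivity
  have hKη1 : η ≤ K * η := le_mul_of_one_le_left hη0.le hK1
  have hη3 : 256 * (K * η) + 128 * η ≤ ρ := by nlinarith
  have hη4 : 4 * (K * η) + 2 * η ≤ ε := by nlinarith
  -- a point `q` in the annulus which comes from the small disc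
  obtain ⟨q, hq1, hq2, z, hz, j, hj⟩ : ∃ q : ℂ, η < ‖q - c‖ ∧ ‖q - c‖ < ρ / 16 ∧ ∃ z ∈ ball c η,
      ∃ j : ℕ, f^[j] (z : OnePoint ℂ) = (q : OnePoint ℂ) := by
    have hfin := Pool.Agent.H47.RJ.exc_fin hd hcop hdeg
      (B := (fun w : ℂ => (w : OnePoint ℂ)) '' ball c η)
      (OnePoint.isOpenEmbedding_coe.isOpenMap _ isOpen_ball)
      ⟨(c : OnePoint ℂ), ⟨c, mem_ball_self hη0, rfl⟩, hJ⟩
    have hinf : ((fun w : ℂ => (w : OnePoint ℂ)) '' {q : ℂ | η < ‖q - c‖ ∧ ‖q - c‖ < ρ / 16}).Infinite := by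
      refine Set.Infinite.image (OnePoint.coe_injective.injOn) ?_
      have hop : IsOpen {q : ℂ | η < ‖q - c‖ ∧ ‖q - c‖ < ρ / 16} :=
        (isOpen_lt continuous_const (continuous_id.sub continuous_const).norm).inter
          (isOpen_lt (continuous_id.sub continuous_const).norm continuous_const)
      refine infinite_of_mem_nhds (c + ((ρ / 32 : ℝ) : ℂ)) (hop.mem_nhds ?_)
      have h1 : ‖c + ((ρ / 32 : ℝ) : ℂ) - c‖ = ρ / 32 := by
        rw [add_sub_cancel_left, Complex.norm_real, Real.norm_eq_abs, abs_of_pos (by positivity)]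
      refine ⟨?_, ?_⟩
      · rw [h1]; linarith
      · rw [h1]; linarith
    obtain ⟨_, ⟨q, hq, rfl⟩, ht⟩ := (hinf.sdiff hfin).nonempty
    rw [Set.mem_ofPred_eq] at ht
    push Not at ht
    obtain ⟨j, _, ⟨z, hz, rfl⟩, hy⟩ := ht
    exact ⟨q, hq.1, hq.2, z, hz, j, by rw [hf]; exact hy⟩
  have hj0 : 0 < j := by
    rcases Nat.eq_zero_or_pos j with h0 | h0
    · exfalso
      subst h0
      have h1 : z = q := OnePoint.coe_injective hj
      rw [h1, mem_ball_iff_norm] at hz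
      linarith
    · exact h0
  have hzc : ‖z - c‖ < η := mem_ball_iff_norm.1 hz
  have hsub : ball q (ρ / 2) ⊆ ball c ρ := by
    intro u hu
    rw [mem_ball_iff_norm] at hu ⊢
    have h1 := norm_add_le (u - q) (q - c)
    rw [sub_add_sub_cancel] at h1
    linarith
  have hoff : Off A q (ρ / 2) := fun u hu => hof u (hsub hu)
  obtain ⟨G, hG⟩ := hs.br (R := ρ / 2) (by positivity) hoff (z := z) (n := j) (by rw [← hf]; exact hj)
  have hGz : G q = z := hG.val
  have hGi : InjOn G (ball q (ρ / 2)) := hG.inj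
  have hGd : DifferentiableOn ℂ G (ball q (ρ / 2)) := hG.diff
  have hcG : c ∉ G '' ball q (ρ / 2) := by
    rintro ⟨u, hu, hGu⟩
    have h1 := hG.inv u hu
    rw [hGu] at h1
    apply hoff u hu
    rw [← h1]
    exact hfc j hj0
  have hder : ‖deriv G q‖ ≤ 32 * η / ρ := by
    have h1 := Pool.Agent.H57.CP.cov_out (R := ρ / 2) (by positivity) hGd hGi hcG
    rw [hGz, norm_sub_rev] at h1
    rw [le_div_iff₀ hρ]
    nlinarith
  have hKd : K * ‖deriv G q‖ ≤ 1 / 2 := by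
    have h1 : K * ‖deriv G q‖ ≤ K * (32 * η / ρ) := mul_le_mul_of_nonneg_left hder (by linarith)
    have h2 : K * (32 * η / ρ) ≤ 1 / 2 := by
      rw [← mul_div_assoc, div_le_iff₀ hρ]
      nlinarith
    linarith
  have hsub2 : closedBall q (ρ / 8) ⊆ closedBall q (ρ / 2 / 2) := closedBall_subset_closedBall (by linarith)
  have hq0 : q ∈ closedBall q (ρ / 2 / 2) := mem_closedBall_self (by positivity)
  have hlip : ∀ u ∈ closedBall q (ρ / 8), ∀ u' ∈ closedBall q (ρ / 8),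
      ‖G u - G u'‖ ≤ K * ‖deriv G q‖ * ‖u - u'‖ := by
    intro u hu u' hu'
    rw [hK]
    exact distort_lip (by positivity) hGd hGi (hsub2 hu) (hsub2 hu') hq0
  have hqq : q ∈ closedBall q (ρ / 8) := mem_closedBall_self (by positivity)
  have hGu : ∀ u ∈ closedBall q (ρ / 8), ‖G u - z‖ ≤ 4 * (K * η) := by
    intro u hu
    have h1 := hlip u hu q hqq
    rw [hGz] at h1
    refine h1.trans ?_
    have h2 : ‖u - q‖ ≤ ρ / 8 := by rw [← dist_eq_norm]; exact mem_closedBall.1 hu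
    have h3 : K * ‖deriv G q‖ * ‖u - q‖ ≤ K * (32 * η / ρ) * (ρ / 8) := by
      refine mul_le_mul ?_ h2 (norm_nonneg _) (by positivity)
      exact mul_le_mul_of_nonneg_left hder (by linarith)
    refine h3.trans (le_of_eq ?_)
    field_simp
    ring
  have hmaps : ∀ u ∈ closedBall q (ρ / 8), G u ∈ closedBall q (ρ / 8) := by
    intro u hu
    rw [mem_closedBall, dist_eq_norm]
    have h1 := hGu u hu
    have e : G u - q = (G u - z) + (z - c) + (c - q) := by ring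
    have h2 : ‖G u - q‖ ≤ ‖G u - z‖ + ‖z - c‖ + ‖c - q‖ := by
      rw [e]
      exact norm_add₃_le
    rw [norm_sub_rev c q] at h2
    linarith
  -- the fixed point
  obtain ⟨p, hp, hmin⟩ := (isCompact_closedBall q (ρ / 8)).exists_isMinOn ⟨q, hqq⟩
    (f := fun u => ‖G u - u‖) (by
      have h1 : ContinuousOn G (closedBall q (ρ / 8)) :=
        hGd.continuousOn.mono (closedBall_subset_ball (by linarith))
      exact (h1.sub continuousOn_id).norm)
  have hpf : G p = p := by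
    by_contra hne
    have h1 : 0 < ‖G p - p‖ := norm_pos_iff.2 (sub_ne_zero.2 hne)
    have h2 := isMinOn_iff.1 hmin (G p) (hmaps p hp)
    have h3 := hlip (G p) (hmaps p hp) p hp
    have h4 : K * ‖deriv G q‖ * ‖G p - p‖ ≤ 1 / 2 * ‖G p - p‖ := mul_le_mul_of_nonneg_right hKd h1.le
    have h5 : ‖G p - p‖ ≤ ‖G (G p) - G p‖ := h2
    linarith
  have hpb : p ∈ ball q (ρ / 2) := closedBall_subset_ball (by linarith) hp
  have hpc : ‖p - c‖ < ε := by
    have h1 := hGu p hp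
    rw [hpf] at h1
    have e : p - c = (p - z) + (z - c) := by ring
    have h2 : ‖p - c‖ ≤ ‖p - z‖ + ‖z - c‖ := by
      rw [e]
      exact norm_add_le _ _
    linarith
  have hRf : f = Rf v := hf
  have hpj : f^[j] (p : OnePoint ℂ) = (p : OnePoint ℂ) := by
    have h1 := hG.inv p hpb
    rw [hpf, ← hf] at h1
    exact h1
  refine ⟨j, p, hj0, hpc, ?_, ?_⟩
  · rw [← hRf]
    exact hpj
  · rw [← hRf]
    intro hF
    -- another point of the disc
    obtain ⟨u, hu, hup⟩ : ∃ u ∈ closedBall q (ρ / 8), u ≠ p := by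
      have h1 : (closedBall q (ρ / 8)).Infinite :=
        infinite_of_mem_nhds q (closedBall_mem_nhds q (by positivity))
      obtain ⟨u, hu⟩ := (h1.sdiff (Set.finite_singleton p)).nonempty
      exact ⟨u, hu.1, fun h => hu.2 (by rw [h]; exact mem_singleton p)⟩
    have hGk : ∀ k : ℕ, G^[k] u ∈ closedBall q (ρ / 8) ∧ ‖G^[k] u - p‖ ≤ (1 / 2) ^ k * ‖u - p‖ ∧
        f^[j * k] (G^[k] u : OnePoint ℂ) = (u : OnePoint ℂ) := by
      intro k
      induction k with
      | zero => exact ⟨hu, by simp, rfl⟩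
      | succ k ih =>
        obtain ⟨h1, h2, h3⟩ := ih
        have h4 := hlip _ h1 p hp
        rw [hpf] at h4
        have h5 : K * ‖deriv G q‖ * ‖G^[k] u - p‖ ≤ 1 / 2 * ‖G^[k] u - p‖ :=
          mul_le_mul_of_nonneg_right hKd (norm_nonneg _)
        rw [Function.iterate_succ_apply']
        refine ⟨hmaps _ h1, ?_, ?_⟩
        · rw [pow_succ]
          linarith
        · have h6 := hG.inv (G^[k] u) (closedBall_subset_ball (by linarith) h1)
          rw [← hf] at h6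
          have h7 : j * (k + 1) = j * k + j := by ring
          rw [h7, Function.iterate_add_apply, h6, h3]
    have hper : ∀ k : ℕ, f^[j * k] (p : OnePoint ℂ) = (p : OnePoint ℂ) := by
      intro k
      rw [Function.iterate_mul]
      exact Function.iterate_fixed hpj k
    have hch : 0 < chord (p : OnePoint ℂ) (u : OnePoint ℂ) := by
      refine lt_of_le_of_ne (chord_nn _ _) fun h => ?_
      exact hup (OnePoint.coe_injective (chord_eqz h.symm)).symm
    have hEq : EqAt f (p : OnePoint ℂ) := interior_subset hF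
    have h1 := hEq _ hch
    have htend : Tendsto (fun k : ℕ => ((G^[k] u : ℂ) : OnePoint ℂ)) atTop (𝓝 (p : OnePoint ℂ)) := by
      refine (OnePoint.continuous_coe.tendsto p).comp ?_
      rw [tendsto_iff_norm_sub_tendsto_zero]
      refine squeeze_zero (fun k => norm_nonneg _) (fun k => (hGk k).2.1) ?_
      have h2 := (tendsto_pow_atTop_nhds_zero_of_lt_one (r := (1 / 2 : ℝ)) (by norm_num)
        (by norm_num)).mul_const ‖u - p‖
      rwa [zero_mul] at h2
    obtain ⟨k, hk⟩ := (htend.eventually h1).exists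
    have h2 := hk (j * k)
    rw [hper k, (hGk k).2.2] at h2
    exact lt_irrefl _ h2

theorem per_near (hd : 2 ≤ d) (hcop : IsCoprime (pol v.1) (pol v.2))
    (hdeg : max (pol v.1).natDegree (pol v.2).natDegree = d) {c : OnePoint ℂ}
    (hc : IsCrit (Rf v) c) (hJ : c ∈ JS (Rf v)) (hP : c ∉ PC (Rf v))
    (hinf : ∀ m n : ℕ, m < n → (Rf v)^[m] c ≠ (Rf v)^[n] c) {U : Set (OnePoint ℂ)}
    (hU : U ∈ 𝓝 c) : ∃ p ∈ U, p ∈ JS (Rf v) ∧ ∃ N : ℕ, 1 ≤ N ∧ (Rf v)^[N] p = p := by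
  -- a finite point of the orbit
  obtain ⟨n, hn, s, hs⟩ : ∃ n : ℕ, 1 ≤ n ∧ ∃ s : ℂ, (s : OnePoint ℂ) = (Rf v)^[n] c := by
    by_cases h1 : (Rf v)^[1] c = OnePoint.infty
    · have h2 : (Rf v)^[2] c ≠ OnePoint.infty := by
        rw [← h1]
        exact (hinf 1 2 (by norm_num)).symm
      obtain ⟨s, hs⟩ := OnePoint.ne_infty_iff_exists.1 h2
      exact ⟨2, by norm_num, s, hs⟩
    · obtain ⟨s, hs⟩ := OnePoint.ne_infty_iff_exists.1 h1
      exact ⟨1, le_rfl, s, hs⟩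
  obtain ⟨G, φ, K, hch, -, hφs, -⟩ := ch_mob (d := d) hd s
  obtain ⟨hcop1, hdeg1, hφ⟩ := hch.conj v hcop hdeg
  have hcs : c ≠ (s : OnePoint ℂ) := by
    rw [hs]
    exact hinf 0 n (by omega)
  obtain ⟨c1, hc1⟩ : ∃ c1 : ℂ, (c1 : OnePoint ℂ) = φ c := by
    apply OnePoint.ne_infty_iff_exists.1
    intro h
    rw [← hφs] at h
    exact hcs (φ.injective h)
  have hf : Continuous (Rf v) := rat_continuous hcop
  obtain ⟨A, hA⟩ : ∃ A, A = φ '' PC (Rf v) := ⟨_, rfl⟩
  have hsys : Sys0 (pol (Lin s v).1) (pol (Lin s v).2) A := by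
    refine ⟨hcop1, by rw [hdeg1]; omega, ?_, ?_, ?_, ?_, ?_⟩
    · rw [hA]
      exact φ.isClosed_image.2 (pc_closed _)
    · rw [hA]
      rintro _ ⟨x, hx, rfl⟩
      exact ⟨Rf v x, pc_inv hf hx, (hφ x).symm⟩
    · intro y hy
      obtain ⟨y, rfl⟩ := φ.surjective y
      have h1 : IsCrit (Rf v) y := (isCrit_conj φ hφ y).1 hy
      rw [hA]
      exact ⟨Rf v y, pc_orb h1 (n := 1) le_rfl, (hφ y).symm⟩
    · rw [hA, ← hφs, hs]
      exact ⟨_, pc_orb hc hn, rfl⟩
    · obtain ⟨a, ha⟩ : ∃ a : ℂ, (a : OnePoint ℂ) = φ ((Rf v)^[n + 1] c) := by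
        apply OnePoint.ne_infty_iff_exists.1
        intro h
        rw [← hφs, hs] at h
        exact hinf n (n + 1) (by omega) (φ.injective h).symm
      refine ⟨a, ?_⟩
      rw [ha, hA]
      exact ⟨_, pc_orb hc (by omega), rfl⟩
  have hcA : (c1 : OnePoint ℂ) ∉ A := by
    rw [hc1, hA]
    rintro ⟨y, hy, h⟩
    rw [φ.injective h] at hy
    exact hP hy
  obtain ⟨r, hr, hoff⟩ := exists_off hsys.closed hcA
  have hfc : ∀ j : ℕ, 0 < j → (rat (pol (Lin s v).1) (pol (Lin s v).2))^[j] (c1 : OnePoint ℂ) ∈ A := by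
    intro j hj
    have h1 : (Rf (Lin s v))^[j] (φ c) = φ ((Rf v)^[j] c) := iter_conj φ hφ j c
    show (Rf (Lin s v))^[j] (c1 : OnePoint ℂ) ∈ A
    rw [hc1, h1, hA]
    exact ⟨_, pc_orb hc hj, rfl⟩
  have hJ1 : (c1 : OnePoint ℂ) ∈ JS (Rf (Lin s v)) := by
    rw [hc1]
    intro h
    exact hJ ((Pool.Agent.H76.SU.fs_conj hch.bil hφ c).1 h)
  obtain ⟨ε, hε, hεU⟩ : ∃ ε : ℝ, 0 < ε ∧ ∀ w ∈ ball c1 ε, (w : OnePoint ℂ) ∈ φ '' U := by
    have h1 : φ '' U ∈ 𝓝 (c1 : OnePoint ℂ) := by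
      rw [hc1]
      exact φ.isOpenMap.image_mem_nhds hU
    obtain ⟨ε, hε, h2⟩ := Metric.mem_nhds_iff.1
      (OnePoint.continuous_coe.continuousAt.preimage_mem_nhds h1)
    exact ⟨ε, hε, fun w hw => h2 hw⟩
  obtain ⟨N, p, hN, hpc, hpN, hpJ⟩ := per_sys hd hcop1 hdeg1 hsys (by positivity) hoff hfc hJ1 hε
  obtain ⟨y, hy, hyp⟩ := hεU p (mem_ball_iff_norm.2 hpc)
  refine ⟨y, hy, ?_, N, hN, ?_⟩
  · intro h
    apply hpJ
    rw [← hyp]
    exact (Pool.Agent.H76.SU.fs_conj hch.bil hφ y).2 h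
  · apply φ.injective
    have h1 : (Rf (Lin s v))^[N] (φ y) = φ ((Rf v)^[N] y) := iter_conj φ hφ N y
    rw [← h1, hyp, hpN]

end Pool.Agent.H47.PS
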